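import Pool.Agent.Q282.GP.Mom

/-!
# The moments of the trace in the middle degree over the good members
-/

set_option autoImplicit false
set_option linter.unusedSectionVars false

namespace Q282GP

open Finset MvPolynomial
open Q282MM (gm)
open Q282RH (Pt)
open Q282GH (zeros Through)

/-- the Betti number in degree `2 a`, outside the middle degree `D`, of a section of dimension `D` and codimension `r` of a
variety with Betti numbers `w j` in degree `2 j` -/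
def oc (w : ℕ → ℕ) (D r a : ℕ) : ℕ := if 2 * a < D then w a else if D < 2 * a ∧ a ≤ D then w (a + r) else 0

/-- the trace outside the middle degree -/
def tt (w : ℕ → ℕ) (D r : ℕ) (q : ℝ) : ℝ := ∑ a ∈ range (D + 1), oc w D r a * q ^ a

/-- the rank of the classes in the middle degree that come from the ambient variety -/
def vv (w : ℕ → ℕ) (D r : ℕ) : ℕ := if Even D then w (D / 2 + r) else 0

lemma main_term (D r : ℕ) (hD : 1 ≤ D) (hr : 1 ≤ r) (w : ℕ → ℕ) (C₀ C₁ : ℝ) (hC₀ : 0 ≤ C₀) (hC₁ : 0 ≤ C₁) :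
    ∃ c : ℝ, 0 ≤ c ∧ ∀ x W Z : ℝ, 1 ≤ x → 0 ≤ Z →
      |W - ∑ j ∈ range (D + r + 1), w j * (x ^ 2) ^ j| ≤ C₀ * x ^ (2 * r + D - 1) → Z ≤ C₁ * x ^ D →
      |(Z + (W - Z) / (x ^ 2) ^ r - tt w D r (x ^ 2)) / x ^ D - (Z / x ^ D + vv w D r)| ≤ c / x := by
  obtain ⟨B, hB⟩ : ∃ B : ℝ, B = ∑ j ∈ range r, (w j : ℝ) + ∑ a ∈ range (D + 1), ((w (a + r) : ℝ) + w a) := ⟨_, rfl⟩
  have hB0 : 0 ≤ B := by
    rw [hB]
    positivity
  refine ⟨C₀ + C₁ + B, by positivity, ?_⟩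
  intro x W Z hx hZ0 hW hZ
  have hx0 : 0 < x := by linarith
  obtain ⟨y, hy⟩ : ∃ y : ℝ, y = x ^ (D - 1) := ⟨_, rfl⟩
  have hy0 : 0 < y := by
    rw [hy]
    positivity
  have hyx : x ^ D = y * x := by
    rw [hy, ← pow_succ]
    congr 1
    omega
  have hle : ∀ k, k ≤ D - 1 → x ^ k ≤ y := fun k hk => by
    rw [hy]
    exact pow_le_pow_right₀ hx hk
  obtain ⟨R, hR⟩ : ∃ R : ℝ, R = (x ^ 2) ^ r := ⟨_, rfl⟩
  have hR0 : 0 < R := by
    rw [hR]
    positivity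
  have hRx : x ≤ R := by
    rw [hR, ← pow_mul]
    calc x = x ^ 1 := (pow_one x).symm
      _ ≤ x ^ (2 * r) := pow_le_pow_right₀ hx (by omega)
  -- the sum over the cohomology of the ambient variety
  have h1 : (∑ j ∈ range (D + r + 1), (w j : ℝ) * (x ^ 2) ^ j) / R = (∑ j ∈ range r, (w j : ℝ) * (x ^ 2) ^ j) / R +
      ∑ a ∈ range (D + 1), (w (a + r) : ℝ) * (x ^ 2) ^ a := by
    rw [show D + r + 1 = r + (D + 1) by ring, sum_range_add, add_div, sum_div (s := range (D + 1))]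
    congr 1
    refine sum_congr rfl fun a _ => ?_
    rw [show r + a = a + r by ring, pow_add, ← hR]
    field_simp
  have h2 : (vv w D r : ℝ) * x ^ D = ∑ a ∈ range (D + 1), (if 2 * a = D then (w (a + r) : ℝ) * (x ^ 2) ^ a else 0) := by
    unfold vv
    split_ifs with hev
    · obtain ⟨m, hm⟩ := hev
      rw [sum_eq_single m]
      · rw [if_pos (by omega), ← pow_mul, show D / 2 = m by omega, show 2 * m = D by omega]
      · intro a _ ha
        rw [if_neg (by omega)]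
      · intro ha
        rw [mem_range] at ha
        omega
    · rw [Nat.cast_zero, zero_mul, sum_eq_zero]
      intro a _
      rw [if_neg]
      intro ha
      exact hev ⟨a, by omega⟩
  have h3 : ∑ a ∈ range (D + 1), (w (a + r) : ℝ) * (x ^ 2) ^ a - tt w D r (x ^ 2) - vv w D r * x ^ D =
      ∑ a ∈ range (D + 1), (if 2 * a < D then ((w (a + r) : ℝ) - w a) * (x ^ 2) ^ a else 0) := by
    rw [h2]
    unfold tt
    rw [← sum_sub_distrib, ← sum_sub_distrib]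
    refine sum_congr rfl fun a ha => ?_
    rw [mem_range] at ha
    unfold oc
    rcases lt_trichotomy (2 * a) D with h | h | h
    · rw [if_pos h, if_neg h.ne, if_pos h]
      ring
    · rw [if_neg (by omega), if_neg (by omega), if_pos h, if_neg (by omega)]
      push_cast
      ring
    · rw [if_neg (by omega), if_pos (by omega), if_neg (by omega), if_neg (by omega)]
      ring
  have h4 : |∑ a ∈ range (D + 1), (if 2 * a < D then ((w (a + r) : ℝ) - w a) * (x ^ 2) ^ a else 0)| ≤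
      (∑ a ∈ range (D + 1), ((w (a + r) : ℝ) + w a)) * y := by
    rw [sum_mul]
    refine (abs_sum_le_sum_abs _ _).trans (sum_le_sum fun a _ => ?_)
    split_ifs with h
    · rw [abs_mul, abs_of_pos (by positivity : (0 : ℝ) < (x ^ 2) ^ a)]
      refine mul_le_mul ?_ ?_ (by positivity) (by positivity)
      · refine (abs_sub _ _).trans ?_
        rw [abs_of_nonneg (Nat.cast_nonneg _ : (0 : ℝ) ≤ _), abs_of_nonneg (Nat.cast_nonneg _ : (0 : ℝ) ≤ _)]
      · rw [← pow_mul]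
        exact hle _ (by omega)
    · rw [abs_zero]
      positivity
  have h5 : |(∑ j ∈ range r, (w j : ℝ) * (x ^ 2) ^ j) / R| ≤ (∑ j ∈ range r, (w j : ℝ)) * y := by
    rw [abs_of_nonneg (by positivity), div_le_iff₀ hR0, mul_assoc, sum_mul]
    refine sum_le_sum fun j hj => ?_
    rw [mem_range] at hj
    refine mul_le_mul_of_nonneg_left ?_ (Nat.cast_nonneg _)
    have h6 : 1 ≤ y := by
      rw [hy]
      exact one_le_pow₀ hx
    calc (x ^ 2) ^ j ≤ R := by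
          rw [hR]
          exact pow_le_pow_right₀ (one_le_pow₀ hx) hj.le
      _ ≤ y * R := le_mul_of_one_le_left hR0.le h6
  have h6 : |(W - ∑ j ∈ range (D + r + 1), w j * (x ^ 2) ^ j) / R| ≤ C₀ * y := by
    rw [abs_div, abs_of_pos hR0, div_le_iff₀ hR0]
    refine hW.trans (le_of_eq ?_)
    rw [hR, hy, mul_assoc, ← pow_mul, ← pow_add]
    congr 2
    omega
  have h7 : |Z / R| ≤ C₁ * y := by
    rw [abs_of_nonneg (by positivity), div_le_iff₀ hR0]
    calc Z ≤ C₁ * (y * x) := by rw [← hyx]; exact hZ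
      _ ≤ C₁ * (y * R) := mul_le_mul_of_nonneg_left (mul_le_mul_of_nonneg_left hRx hy0.le) hC₁
      _ = _ := by ring
  have h8 : (Z + (W - Z) / (x ^ 2) ^ r - tt w D r (x ^ 2)) / x ^ D - (Z / x ^ D + vv w D r) =
      ((W - ∑ j ∈ range (D + r + 1), w j * (x ^ 2) ^ j) / R - Z / R + (∑ j ∈ range r, (w j : ℝ) * (x ^ 2) ^ j) / R +
        ∑ a ∈ range (D + 1), (if 2 * a < D then ((w (a + r) : ℝ) - w a) * (x ^ 2) ^ a else 0)) / (y * x) := by
    rw [← h3, ← hyx, ← hR, eq_div_iff (by positivity)]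
    have h9 : (Z / x ^ D) * x ^ D = Z := by field_simp
    have h10 : (Z + (W - Z) / R - tt w D r (x ^ 2)) / x ^ D * x ^ D = Z + (W - Z) / R - tt w D r (x ^ 2) := by field_simp
    rw [sub_mul, add_mul, h9, h10, sub_div, sub_div]
    linarith
  rw [h8, abs_div, abs_of_pos (by positivity : 0 < y * x), div_le_div_iff₀ (by positivity) hx0]
  have h9 : |(W - ∑ j ∈ range (D + r + 1), w j * (x ^ 2) ^ j) / R - Z / R + (∑ j ∈ range r, (w j : ℝ) * (x ^ 2) ^ j) / R +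
        ∑ a ∈ range (D + 1), (if 2 * a < D then ((w (a + r) : ℝ) - w a) * (x ^ 2) ^ a else 0)| ≤ (C₀ + C₁ + B) * y := by
    rw [hB]
    rw [abs_le] at h4 h5 h6 h7 ⊢
    constructor <;> linarith [h4.1, h4.2, h5.1, h5.2, h6.1, h6.2, h7.1, h7.2]
  calc _ ≤ (C₀ + C₁ + B) * y * x := mul_le_mul_of_nonneg_right h9 hx0.le
    _ = _ := by ring

/-- **Moments of a sum.** -/
lemma shift_mom {Γ : Type} [Fintype Γ] [Nonempty Γ] (Y : Γ → ℝ) (A B Q δ : ℝ) (k : ℕ) (hQ : 1 ≤ Q) (hA : |A| ≤ Q) (hB : |B| ≤ Q)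
    (hAB : |A - B| ≤ δ) (hδ : 0 ≤ δ) (g : ℕ → ℝ) (G : ℝ) (hG : ∀ j ≤ k, |g j| ≤ G) (hY : ∀ j ≤ k, |av (fun c => Y c ^ j) - g j| ≤ δ) :
    |av (fun c => (Y c + A) ^ k) - ∑ j ∈ range (k + 1), (k.choose j : ℝ) * g j * B ^ (k - j)| ≤ (2 * Q) ^ k * (1 + G * k) * δ := by
  have h1 : av (fun c => (Y c + A) ^ k) = ∑ j ∈ range (k + 1), (k.choose j : ℝ) * av (fun c => Y c ^ j) * A ^ (k - j) := by
    have h2 : (fun c => (Y c + A) ^ k) = fun c => ∑ j ∈ range (k + 1), ((k.choose j : ℝ) * A ^ (k - j)) * Y c ^ j := by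
      funext c
      rw [add_pow]
      refine sum_congr rfl fun j _ => ?_
      ring
    rw [h2, av_sum]
    refine sum_congr rfl fun j _ => ?_
    rw [av_smul]
    ring
  have hG0 : 0 ≤ G := (abs_nonneg _).trans (hG 0 (Nat.zero_le _))
  rw [h1, ← sum_sub_distrib]
  refine (abs_sum_le_sum_abs _ _).trans ?_
  have h3 : ∀ j ∈ range (k + 1), |(k.choose j : ℝ) * av (fun c => Y c ^ j) * A ^ (k - j) - (k.choose j : ℝ) * g j * B ^ (k - j)| ≤
      (k.choose j : ℝ) * (Q ^ k * (1 + G * k) * δ) := by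
    intro j hj
    rw [mem_range] at hj
    have h4 : (k.choose j : ℝ) * av (fun c => Y c ^ j) * A ^ (k - j) - (k.choose j : ℝ) * g j * B ^ (k - j) =
        (k.choose j : ℝ) * ((av (fun c => Y c ^ j) - g j) * A ^ (k - j) + g j * (A ^ (k - j) - B ^ (k - j))) := by ring
    rw [h4, abs_mul, abs_of_nonneg (Nat.cast_nonneg _ : (0 : ℝ) ≤ _)]
    refine mul_le_mul_of_nonneg_left ?_ (Nat.cast_nonneg _)
    have h5 : |A| ^ (k - j) ≤ Q ^ k := (pow_le_pow_left₀ (abs_nonneg _) hA _).trans (pow_le_pow_right₀ hQ (by omega))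
    have h6 : |A ^ (k - j) - B ^ (k - j)| ≤ δ * k * Q ^ k := by
      refine (abs_pow_sub_pow_le A B (k - j)).trans ?_
      have h7 : max |A| |B| ^ (k - j - 1) ≤ Q ^ k :=
        (pow_le_pow_left₀ (by positivity) (max_le hA hB) _).trans (pow_le_pow_right₀ hQ (by omega))
      have h8 : ((k - j : ℕ) : ℝ) ≤ k := by exact_mod_cast Nat.sub_le k j
      exact mul_le_mul (mul_le_mul hAB h8 (Nat.cast_nonneg _) hδ) h7 (by positivity) (by positivity)
    calc |(av (fun c => Y c ^ j) - g j) * A ^ (k - j) + g j * (A ^ (k - j) - B ^ (k - j))| ≤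
          |(av (fun c => Y c ^ j) - g j) * A ^ (k - j)| + |g j * (A ^ (k - j) - B ^ (k - j))| := abs_add_le _ _
      _ ≤ δ * Q ^ k + G * (δ * k * Q ^ k) := by
          rw [abs_mul, abs_mul, abs_pow]
          exact add_le_add (mul_le_mul (hY j (by omega)) h5 (by positivity) hδ) (mul_le_mul (hG j (by omega)) h6 (abs_nonneg _) hG0)
      _ = _ := by ring
  refine (sum_le_sum h3).trans (le_of_eq ?_)
  rw [← sum_mul]
  have h4 : ∑ j ∈ range (k + 1), (k.choose j : ℝ) = 2 ^ k := by exact_mod_cast Nat.sum_range_choose k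
  rw [h4, mul_pow]
  ring

open Classical in
/-- **The moments over the good members.** -/
theorem good_mom (D r : ℕ) (hD : 1 ≤ D) (hr : 1 ≤ r) (w : ℕ → ℕ) (hw : w (D + r) = 1) (C₀ C₁ C₂ : ℝ) (hC₀ : 0 ≤ C₀) (hC₁ : 0 ≤ C₁)
    (hC₂ : 0 ≤ C₂) (ν : ℕ) (hν : 1 ≤ ν) :
    ∃ K : ℝ, 0 ≤ K ∧ ∀ {O : Type} [CommRing O] {n p : ℕ} [hp : Fact p.Prime] (ψ : O →+* ZMod p) {A : Type} [Fintype A] [DecidableEq A]
      {ι : A → Type} [∀ a, Fintype (ι a)] [∀ a, DecidableEq (ι a)] {J : Type} {h : J → MvPolynomial (Fin (n + 1)) O} {e : J → ℕ} {d : A → ℕ}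
      {f : (a : A) → ι a → MvPolynomial (Fin (n + 1)) O} (_ : Fintype.card A = r) (_ : ∀ j, (h j).IsHomogeneous (e j))
      (_ : ∀ j a, e j + 2 * ν ≤ d a + 1) (_ : ∀ a, Through h (d a) (f a)) (E : Set (MvPolynomial (Fin (n + 1)) O))
      (Bad : ((Σ a, ι a) → ZMod p) → Prop), ((univ.filter Bad).card : ℝ) ≤ C₂ * (p : ℝ) ^ Fintype.card (Σ a, ι a) / p →
      |(zeros ψ E : ℝ) - ∑ j ∈ range (D + r + 1), w j * (p : ℝ) ^ j| ≤ C₀ * Real.sqrt p ^ (2 * r + D - 1) →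
      (zeros ψ (E ∪ Set.range h) : ℝ) ≤ C₁ * Real.sqrt p ^ D → ∀ k ≤ ν,
      |av (fun c => if Bad c then 0 else (((zeros (eval₂Hom ψ c) (fam E f) : ℝ) - tt w D r p) / Real.sqrt p ^ D) ^ k) -
        ∑ j ∈ range (k + 1), (k.choose j : ℝ) * gm j * ((zeros ψ (E ∪ Set.range h) : ℝ) / Real.sqrt p ^ D + vv w D r) ^ (k - j)| ≤
      K / Real.sqrt p := by
  obtain ⟨K₁, hK₁0, hK₁⟩ := gauss D r hD hr w hw C₀ C₁ hC₀ hC₁ ν hν
  obtain ⟨c, hc0, hc⟩ := main_term D r hD hr w C₀ C₁ hC₀ hC₁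
  obtain ⟨G, hG⟩ : ∃ G : ℝ, G = ∑ j ∈ range (2 * ν + 1), (gm j : ℝ) := ⟨_, rfl⟩
  have hGj : ∀ j ≤ 2 * ν, |(gm j : ℝ)| ≤ G := by
    intro j hj
    rw [abs_of_nonneg (Nat.cast_nonneg _ : (0 : ℝ) ≤ _), hG]
    exact single_le_sum (f := fun j => (gm j : ℝ)) (fun j _ => Nat.cast_nonneg _) (mem_range.2 (by omega))
  have hG0 : 0 ≤ G := (abs_nonneg _).trans (hGj 0 (Nat.zero_le _))
  obtain ⟨Q, hQ⟩ : ∃ Q : ℝ, Q = 1 + C₁ + vv w D r + c := ⟨_, rfl⟩
  have hQ1 : 1 ≤ Q := by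
    rw [hQ]
    have : (0 : ℝ) ≤ vv w D r := Nat.cast_nonneg _
    linarith
  obtain ⟨K₂, hK₂⟩ : ∃ K₂ : ℝ, K₂ = (2 * Q) ^ (2 * ν) * (1 + G * (2 * ν : ℕ)) * (K₁ + c) := ⟨_, rfl⟩
  have hK₂0 : 0 ≤ K₂ := by
    rw [hK₂]
    positivity
  obtain ⟨K₃, hK₃⟩ : ∃ K₃ : ℝ, K₃ = K₂ + 2 ^ (2 * ν) * G * Q ^ (2 * ν) := ⟨_, rfl⟩
  have hK₃0 : 0 ≤ K₃ := by
    rw [hK₃]
    positivity
  refine ⟨K₂ + Real.sqrt (C₂ * K₃), by positivity, ?_⟩
  intro O _ n p hp ψ A _ _ ι _ _ J h e d f hA hh hd hf E Bad hBad hW hZ k hk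
  have hp0 : (0 : ℝ) < p := by exact_mod_cast hp.out.pos
  have hp1 : (1 : ℝ) ≤ p := by exact_mod_cast hp.out.one_lt.le
  have hg := hK₁ ψ hA hh hd hf E hW hZ
  obtain ⟨x, hx⟩ : ∃ x : ℝ, x = Real.sqrt p := ⟨_, rfl⟩
  have hx1 : 1 ≤ x := by
    rw [hx]
    exact Real.one_le_sqrt.2 hp1
  have hx0 : 0 < x := by linarith
  have hxp : (p : ℝ) = x ^ 2 := by
    rw [hx, Real.sq_sqrt hp0.le]
  rw [← hx] at hW hZ hg ⊢
  rw [hxp] at hW
  have hm := hc x (zeros ψ E) (zeros ψ (E ∪ Set.range h)) hx1 (Nat.cast_nonneg _) hW hZ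
  obtain ⟨u, hu⟩ : ∃ u : ℝ, u = x ^ D := ⟨_, rfl⟩
  have hu0 : 0 < u := by
    rw [hu]
    positivity
  obtain ⟨Z, hZd⟩ : ∃ Z : ℝ, Z = zeros ψ (E ∪ Set.range h) := ⟨_, rfl⟩
  have hZ0 : 0 ≤ Z := by
    rw [hZd]
    exact Nat.cast_nonneg _
  obtain ⟨Am, hAm⟩ : ∃ Am : ℝ, Am = (Z + ((zeros ψ E : ℝ) - Z) / (x ^ 2) ^ r - tt w D r (x ^ 2)) / u := ⟨_, rfl⟩
  rw [← hZd, ← hu] at hm hZ ⊢
  rw [← hu] at hg
  rw [← hAm] at hm
  have hτ : ∀ c, ((zeros (eval₂Hom ψ c) (fam E f) : ℝ) - tt w D r p) / u = gdev ψ E h f c / u + Am := by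
    intro c
    rw [zeros_fam ψ hf E c, hA, hAm, ← hZd, hxp]
    ring
  have hcx : c / x ≤ c := div_le_self hc0 hx1
  have hzu : Z / u ≤ C₁ := by
    rw [div_le_iff₀ hu0]
    exact hZ
  have hzu0 : 0 ≤ Z / u := by positivity
  have hvv : (0 : ℝ) ≤ vv w D r := Nat.cast_nonneg _
  have hBb : |Z / u + vv w D r| ≤ Q := by
    rw [abs_of_nonneg (by positivity), hQ]
    linarith
  have hAb : |Am| ≤ Q := by
    have h1 := abs_sub_abs_le_abs_sub Am (Z / u + vv w D r)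
    rw [abs_of_nonneg (by positivity : 0 ≤ Z / u + (vv w D r : ℝ))] at h1
    rw [hQ]
    linarith
  have hδ0 : 0 ≤ (K₁ + c) / x := by positivity
  have hδA : |Am - (Z / u + vv w D r)| ≤ (K₁ + c) / x := hm.trans (div_le_div_of_nonneg_right (by linarith) hx0.le)
  have hδY : ∀ j ≤ 2 * ν, |av (fun c => (gdev ψ E h f c / u) ^ j) - (gm j : ℝ)| ≤ (K₁ + c) / x := fun j hj =>
    (hg j hj).trans (div_le_div_of_nonneg_right (by linarith) hx0.le)
  have key : ∀ m ≤ 2 * ν, |av (fun c => (gdev ψ E h f c / u + Am) ^ m) -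
      ∑ j ∈ range (m + 1), (m.choose j : ℝ) * gm j * (Z / u + vv w D r) ^ (m - j)| ≤ K₂ / x := by
    intro m hmν
    have h1 := shift_mom (fun c => gdev ψ E h f c / u) Am (Z / u + vv w D r) Q ((K₁ + c) / x) m hQ1 hAb hBb hδA hδ0 (fun j => (gm j : ℝ)) G
      (fun j hj => hGj j (by omega)) (fun j hj => hδY j (by omega))
    refine h1.trans ?_
    rw [hK₂, mul_div_assoc]
    refine mul_le_mul_of_nonneg_right ?_ hδ0
    have h2 : (m : ℝ) ≤ (2 * ν : ℕ) := by exact_mod_cast hmν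
    refine mul_le_mul (pow_le_pow_right₀ (by linarith) hmν) ?_ (by positivity) (by positivity)
    linarith [mul_le_mul_of_nonneg_left h2 hG0]
  -- the bad members
  have hcard : (Fintype.card ((Σ a, ι a) → ZMod p) : ℝ) = (p : ℝ) ^ Fintype.card (Σ a, ι a) := by
    rw [Fintype.card_fun, ZMod.card]
    push_cast
    rfl
  have hbad : av (fun c : (Σ a, ι a) → ZMod p => (if Bad c then (1 : ℝ) else 0) ^ 2) ≤ C₂ / p := by
    unfold av
    rw [hcard, div_le_div_iff₀ (by positivity) hp0]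
    rw [le_div_iff₀ hp0] at hBad
    have h1 : ∑ c : (Σ a, ι a) → ZMod p, (if Bad c then (1 : ℝ) else 0) ^ 2 = ((univ.filter Bad).card : ℝ) := by
      rw [card_filter]
      push_cast
      refine sum_congr rfl fun c _ => ?_
      split_ifs <;> norm_num
    rw [h1]
    exact hBad
  have h2k : av (fun c => ((gdev ψ E h f c / u + Am) ^ k) ^ 2) ≤ K₃ := by
    have h1 := key (2 * k) (by omega)
    have h2 : av (fun c => ((gdev ψ E h f c / u + Am) ^ k) ^ 2) = av (fun c => (gdev ψ E h f c / u + Am) ^ (2 * k)) := by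
      congr 1
      funext c
      rw [← pow_mul]
      congr 1
      ring
    rw [h2]
    have h3 : |∑ j ∈ range (2 * k + 1), ((2 * k).choose j : ℝ) * gm j * (Z / u + vv w D r) ^ (2 * k - j)| ≤ 2 ^ (2 * ν) * G * Q ^ (2 * ν) := by
      refine (abs_sum_le_sum_abs _ _).trans ?_
      have h4 : ∀ j ∈ range (2 * k + 1), |((2 * k).choose j : ℝ) * gm j * (Z / u + vv w D r) ^ (2 * k - j)| ≤
          ((2 * k).choose j : ℝ) * (G * Q ^ (2 * ν)) := by
        intro j hj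
        rw [mem_range] at hj
        rw [mul_assoc, abs_mul, abs_of_nonneg (Nat.cast_nonneg _ : (0 : ℝ) ≤ (((2 * k).choose j : ℕ) : ℝ))]
        refine mul_le_mul_of_nonneg_left ?_ (Nat.cast_nonneg _)
        rw [abs_mul, abs_pow]
        refine mul_le_mul (hGj j (by omega)) ?_ (by positivity) hG0
        exact (pow_le_pow_left₀ (abs_nonneg _) hBb _).trans (pow_le_pow_right₀ hQ1 (by omega))
      refine (sum_le_sum h4).trans ?_
      rw [← sum_mul]
      have h5 : ∑ j ∈ range (2 * k + 1), ((2 * k).choose j : ℝ) = 2 ^ (2 * k) := by exact_mod_cast Nat.sum_range_choose (2 * k)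
      rw [h5, mul_assoc]
      exact mul_le_mul_of_nonneg_right (pow_le_pow_right₀ (by norm_num) (by omega)) (by positivity)
    have h6 : K₂ / x ≤ K₂ := div_le_self hK₂0 hx1
    rw [hK₃]
    have h7 := (abs_le.1 h1).2
    have h8 := (abs_le.1 h3).2
    linarith
  have hcs := av_cs (fun c : (Σ a, ι a) → ZMod p => if Bad c then (1 : ℝ) else 0) (fun c => (gdev ψ E h f c / u + Am) ^ k)
  have hb2 : |av (fun c : (Σ a, ι a) → ZMod p => (if Bad c then (1 : ℝ) else 0) * (gdev ψ E h f c / u + Am) ^ k)| ≤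
      Real.sqrt (C₂ * K₃) / x := by
    rw [← Real.sqrt_sq_eq_abs]
    have h1 : Real.sqrt (C₂ * K₃) / x = Real.sqrt (C₂ * K₃ / p) := by
      rw [Real.sqrt_div' _ hp0.le, ← hx]
    rw [h1]
    refine Real.sqrt_le_sqrt (hcs.trans ?_)
    calc _ ≤ (C₂ / p) * K₃ := mul_le_mul hbad h2k (av_nonneg _ fun _ => sq_nonneg _) (by positivity)
      _ = _ := by ring
  have hsplit : av (fun c => if Bad c then 0 else (((zeros (eval₂Hom ψ c) (fam E f) : ℝ) - tt w D r p) / u) ^ k) =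
      av (fun c => (gdev ψ E h f c / u + Am) ^ k) -
        av (fun c : (Σ a, ι a) → ZMod p => (if Bad c then (1 : ℝ) else 0) * (gdev ψ E h f c / u + Am) ^ k) := by
    rw [← av_sub]
    congr 1
    funext c
    rw [hτ c]
    split_ifs <;> ring
  rw [hsplit]
  have h1 := key k (by omega)
  rw [add_div]
  rw [abs_le] at h1 hb2 ⊢
  constructor <;> linarith [h1.1, h1.2, hb2.1, hb2.2]

end Q282GP
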