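import Pool.Agent.Q282.GP.Kun
import Pool.Agent.Q282.GH.Main

/-!
# The L-functions of the powers of the generic complete intersection
-/

set_option autoImplicit false
set_option linter.unusedSectionVars false

namespace Q282GP

open Finset MvPolynomial NumberField
open Q282MM (gm)
open Q282GH (zeros Through aa Ac core bad_count card_homs card_pts ptOne ptOne_val homEquiv zeros_ptOf)
open Pool.Agent.TH958.An (Pt Res qy pk qy_eq ptOf mem_ptOf)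
open Pool.Agent.H126R3 (Qc Qc_pos)
open Pool.Agent.H921R2.TatePole (R hc R_eq_hc R_le)

/-- the number of the classes on the product of `k` copies of the middle cohomology that involve `l` components of the base scheme:
`j` factors are paired by diagonals, the other ones carry classes of the ambient variety -/
def mid (v k l : ℕ) : ℕ := ∑ j ∈ range (k + 1), k.choose j * (k - j).choose l * gm j * v ^ (k - j - l)

/-- the coefficient of the `k`-th power of the trace in the middle degree -/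
noncomputable def cc (w : ℕ → ℕ) (D r ν i k : ℕ) : ℕ :=
  ν.choose k * (if D * k ≤ 2 * i then PowerSeries.coeff (2 * i - D * k) (oser w D r ^ (ν - k)) else 0)

/-- the exponents -/
noncomputable def TT (w : ℕ → ℕ) (D r ν i l : ℕ) : ℕ := ∑ k ∈ range (ν + 1), cc w D r ν i k * mid (vv w D r) k l

lemma expand (z : ℝ) (v k ν : ℕ) (hk : k ≤ ν) :
    ∑ j ∈ range (k + 1), (k.choose j : ℝ) * gm j * (z + v) ^ (k - j) = ∑ l ∈ range (ν + 1), (mid v k l : ℝ) * z ^ l := by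
  have h1 : ∀ m ≤ k, (z + (v : ℝ)) ^ m = ∑ l ∈ range (ν + 1), (m.choose l : ℝ) * (v : ℝ) ^ (m - l) * z ^ l := by
    intro m hm
    rw [add_pow]
    rw [← sum_subset (range_subset_range.2 (show m + 1 ≤ ν + 1 by omega))]
    · refine sum_congr rfl fun l _ => ?_
      ring
    · intro l _ hl
      rw [mem_range] at hl
      rw [Nat.choose_eq_zero_of_lt (by omega)]
      simp
  have h2 : ∀ j ∈ range (k + 1), (k.choose j : ℝ) * gm j * (z + v) ^ (k - j) =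
      ∑ l ∈ range (ν + 1), (k.choose j : ℝ) * ((k - j).choose l : ℝ) * gm j * (v : ℝ) ^ (k - j - l) * z ^ l := by
    intro j _
    rw [h1 (k - j) (Nat.sub_le _ _), mul_sum]
    refine sum_congr rfl fun l _ => ?_
    ring
  rw [sum_congr rfl h2, sum_comm]
  refine sum_congr rfl fun l _ => ?_
  unfold mid
  push_cast
  rw [sum_mul]

section

variable {K : Type} [Field K] [NumberField K] {A : Type} [Fintype A] [DecidableEq A] {ι : A → Type} [∀ a, Fintype (ι a)]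
  [∀ a, DecidableEq (ι a)]

lemma fam_hom {n : ℕ} {d : A → ℕ} {J : Type} {h : J → MvPolynomial (Fin (n + 1)) (𝓞 K)}
    {f : (a : A) → ι a → MvPolynomial (Fin (n + 1)) (𝓞 K)}
    (hf : ∀ a, Through h (d a) (f a)) (E : Set (MvPolynomial (Fin (n + 1)) (𝓞 K))) (hE : ∀ G ∈ E, ∃ k, G.IsHomogeneous k) :
    ∀ G ∈ fam E f, ∃ k, G.IsHomogeneous k := by
  rintro G (⟨a, rfl⟩ | ⟨F, hF, rfl⟩)
  · refine ⟨d a, ?_⟩
    unfold gen
    refine IsHomogeneous.sum _ _ _ fun k _ => ?_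
    exact (((hf a).hom k).map _).C_mul _
  · obtain ⟨k, hk⟩ := hE F hF
    exact ⟨k, hk.map _⟩

open Classical in
/-- **The average of the traces modulo a prime.** -/
theorem prime_sum (D : ℕ) (hD : 1 ≤ D) (r : ℕ) (hr : 1 ≤ r) (hA : Fintype.card A = r) (w : ℕ → ℕ) (hw : w (D + r) = 1) (C₀ C₁ C₂ : ℝ)
    (hC₂ : 0 ≤ C₂) (ν : ℕ) (hν : 1 ≤ ν) {n : ℕ} {J : Type} {h : J → MvPolynomial (Fin (n + 1)) (𝓞 K)} {e : J → ℕ} {d : A → ℕ}
    {f : (a : A) → ι a → MvPolynomial (Fin (n + 1)) (𝓞 K)} (hh : ∀ j, (h j).IsHomogeneous (e j))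
    (hd : ∀ j a, e j + 2 * ν ≤ d a + 1) (hf : ∀ a, Through h (d a) (f a)) (E : Set (MvPolynomial (Fin (n + 1)) (𝓞 K)))
    (hW : ∀ (p : ℕ) [Fact p.Prime] (ψ : 𝓞 K →+* ZMod p),
      |(zeros ψ E : ℝ) - ∑ j ∈ range (D + r + 1), w j * (p : ℝ) ^ j| ≤ C₀ * Real.sqrt p ^ (2 * r + D - 1))
    {κ : ℕ → Type} [∀ l, Fintype (κ l)] (L : (l : ℕ) → κ l → Type) [∀ l j, Field (L l j)] [∀ l j, NumberField (L l j)]
    (hZ : ∀ (p : ℕ) [Fact p.Prime], ∀ l ≤ ν, |∑ᶠ ψ : 𝓞 K →+* ZMod p, (zeros ψ (E ∪ Set.range h) : ℝ) ^ l -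
      Real.sqrt p ^ (D * l) * ∑ j, (Nat.card (𝓞 (L l j) →+* ZMod p) : ℝ)| ≤ C₁ * Real.sqrt p ^ (D * l) / Real.sqrt p) :
    ∃ K₀ : ℝ, 0 ≤ K₀ ∧ ∀ (p : ℕ) [Fact p.Prime] (Bad : (𝓞 K →+* ZMod p) → ((Σ a, ι a) → ZMod p) → Prop),
      (∀ ψ, ((univ.filter (Bad ψ)).card : ℝ) ≤ C₂ * (p : ℝ) ^ Fintype.card (Σ a, ι a) / p) → ∀ k ≤ ν,
      |∑ᶠ ψ : 𝓞 K →+* ZMod p, av (fun c => if Bad ψ c then 0 else
          (((zeros (eval₂Hom ψ c) (fam E f) : ℝ) - tt w D r p) / Real.sqrt p ^ D) ^ k) -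
        ∑ l ∈ range (ν + 1), (mid (vv w D r) k l : ℝ) * ∑ j, (Nat.card (𝓞 (L l j) →+* ZMod p) : ℝ)| ≤ K₀ / Real.sqrt p := by
  obtain ⟨S, hS⟩ : ∃ S : ℝ, S = ∑ j, (Module.finrank ℚ (L 1 j) : ℝ) := ⟨_, rfl⟩
  have hS0 : 0 ≤ S := by
    rw [hS]
    positivity
  obtain ⟨K₁, hK₁0, hK₁⟩ := good_mom D r hD hr w hw |C₀| (S + |C₁|) C₂ (abs_nonneg _) (by positivity) hC₂ ν hν
  obtain ⟨T, hT⟩ : ∃ T : ℝ, T = ∑ k ∈ range (ν + 1), ∑ l ∈ range (ν + 1), (mid (vv w D r) k l : ℝ) := ⟨_, rfl⟩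
  have hTk : ∀ k ≤ ν, ∑ l ∈ range (ν + 1), (mid (vv w D r) k l : ℝ) ≤ T := by
    intro k hk
    rw [hT]
    exact single_le_sum (f := fun k => ∑ l ∈ range (ν + 1), (mid (vv w D r) k l : ℝ)) (fun k _ => sum_nonneg fun l _ => Nat.cast_nonneg _)
      (mem_range.2 (by omega))
  have hT0 : 0 ≤ T := (sum_nonneg fun l _ => Nat.cast_nonneg _).trans (hTk 0 (Nat.zero_le _))
  refine ⟨(Module.finrank ℚ K : ℝ) * K₁ + T * |C₁|, by positivity, ?_⟩
  intro p hpf Bad hBad k hk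
  have hp0 : (0 : ℝ) < p := by exact_mod_cast hpf.out.pos
  have hp1 : (1 : ℝ) ≤ p := by exact_mod_cast hpf.out.one_lt.le
  let _ : Fintype (𝓞 K →+* ZMod p) := Fintype.ofFinite _
  obtain ⟨x, hx⟩ : ∃ x : ℝ, x = Real.sqrt p := ⟨_, rfl⟩
  have hx1 : 1 ≤ x := by
    rw [hx]
    exact Real.one_le_sqrt.2 hp1
  have hx0 : 0 < x := by linarith
  have hZ' := hZ p
  rw [← hx] at hZ' ⊢
  simp only [finsum_eq_sum_of_fintype] at hZ' ⊢
  obtain ⟨u, hu⟩ : ∃ u : ℝ, u = x ^ D := ⟨_, rfl⟩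
  have hu0 : 0 < u := by
    rw [hu]
    positivity
  have hZ1 : ∀ ψ : 𝓞 K →+* ZMod p, (zeros ψ (E ∪ Set.range h) : ℝ) ≤ (S + |C₁|) * x ^ D := by
    intro ψ
    have h1 : (zeros ψ (E ∪ Set.range h) : ℝ) ≤ ∑ ψ : 𝓞 K →+* ZMod p, (zeros ψ (E ∪ Set.range h) : ℝ) :=
      single_le_sum (f := fun ψ => (zeros ψ (E ∪ Set.range h) : ℝ)) (fun _ _ => Nat.cast_nonneg _) (mem_univ ψ)
    have h2 : ∑ j, (Nat.card (𝓞 (L 1 j) →+* ZMod p) : ℝ) ≤ S := by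
      rw [hS]
      exact sum_le_sum fun j _ => by exact_mod_cast (card_homs (L 1 j) (ZMod p)).2
    have h3 := (abs_le.1 (hZ' 1 hν)).2
    simp only [pow_one, mul_one] at h3
    have h4 : x ^ D * ∑ j, (Nat.card (𝓞 (L 1 j) →+* ZMod p) : ℝ) ≤ x ^ D * S := mul_le_mul_of_nonneg_left h2 (by positivity)
    have h5 : C₁ * x ^ D / x ≤ |C₁| * x ^ D := by
      rw [div_le_iff₀ hx0]
      calc C₁ * x ^ D ≤ |C₁| * x ^ D := mul_le_mul_of_nonneg_right (le_abs_self _) (by positivity)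
        _ ≤ |C₁| * x ^ D * x := le_mul_of_one_le_right (by positivity) hx1
    linarith
  have hψ : ∀ ψ : 𝓞 K →+* ZMod p, |av (fun c => if Bad ψ c then 0 else
          (((zeros (eval₂Hom ψ c) (fam E f) : ℝ) - tt w D r p) / x ^ D) ^ k) -
        ∑ l ∈ range (ν + 1), (mid (vv w D r) k l : ℝ) * ((zeros ψ (E ∪ Set.range h) : ℝ) / x ^ D) ^ l| ≤ K₁ / x := by
    intro ψ
    rw [← expand _ _ k ν hk, hx]
    refine hK₁ ψ hA hh hd hf E (Bad ψ) (hBad ψ) ((hW p ψ).trans ?_) (by rw [← hx]; exact hZ1 ψ) k hk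
    exact mul_le_mul_of_nonneg_right (le_abs_self _) (by positivity)
  have hsum1 : |∑ ψ : 𝓞 K →+* ZMod p, av (fun c => if Bad ψ c then 0 else
          (((zeros (eval₂Hom ψ c) (fam E f) : ℝ) - tt w D r p) / x ^ D) ^ k) -
        ∑ ψ : 𝓞 K →+* ZMod p, ∑ l ∈ range (ν + 1), (mid (vv w D r) k l : ℝ) * ((zeros ψ (E ∪ Set.range h) : ℝ) / x ^ D) ^ l| ≤
        (Module.finrank ℚ K : ℝ) * (K₁ / x) := by
    rw [← sum_sub_distrib]
    refine (abs_sum_le_sum_abs _ _).trans ((sum_le_sum fun ψ _ => hψ ψ).trans ?_)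
    rw [sum_const, card_univ, nsmul_eq_mul, ← Nat.card_eq_fintype_card]
    refine mul_le_mul_of_nonneg_right ?_ (by positivity)
    exact_mod_cast (card_homs K (ZMod p)).2
  have hsum2 : |∑ ψ : 𝓞 K →+* ZMod p, ∑ l ∈ range (ν + 1), (mid (vv w D r) k l : ℝ) * ((zeros ψ (E ∪ Set.range h) : ℝ) / x ^ D) ^ l -
        ∑ l ∈ range (ν + 1), (mid (vv w D r) k l : ℝ) * ∑ j, (Nat.card (𝓞 (L l j) →+* ZMod p) : ℝ)| ≤ T * (|C₁| / x) := by
    rw [sum_comm, ← sum_sub_distrib]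
    have h1 : ∀ l ∈ range (ν + 1), |∑ ψ : 𝓞 K →+* ZMod p, (mid (vv w D r) k l : ℝ) * ((zeros ψ (E ∪ Set.range h) : ℝ) / x ^ D) ^ l -
        (mid (vv w D r) k l : ℝ) * ∑ j, (Nat.card (𝓞 (L l j) →+* ZMod p) : ℝ)| ≤ (mid (vv w D r) k l : ℝ) * (|C₁| / x) := by
      intro l hl
      rw [mem_range] at hl
      rw [← mul_sum, ← mul_sub, abs_mul, abs_of_nonneg (Nat.cast_nonneg _ : (0 : ℝ) ≤ _)]
      refine mul_le_mul_of_nonneg_left ?_ (Nat.cast_nonneg _)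
      have h2 := hZ' l (by omega)
      have h3 : (0 : ℝ) < x ^ (D * l) := by positivity
      have h4 : ∑ ψ : 𝓞 K →+* ZMod p, ((zeros ψ (E ∪ Set.range h) : ℝ) / x ^ D) ^ l - ∑ j, (Nat.card (𝓞 (L l j) →+* ZMod p) : ℝ) =
          (∑ ψ : 𝓞 K →+* ZMod p, (zeros ψ (E ∪ Set.range h) : ℝ) ^ l - x ^ (D * l) * ∑ j, (Nat.card (𝓞 (L l j) →+* ZMod p) : ℝ)) / x ^ (D * l) := by
        rw [sub_div, mul_div_cancel_left₀ _ h3.ne', sum_div]
        congr 1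
        refine sum_congr rfl fun ψ _ => ?_
        rw [div_pow, ← pow_mul]
      rw [h4, abs_div, abs_of_pos h3, div_le_iff₀ h3]
      refine h2.trans ?_
      rw [div_mul_eq_mul_div]
      exact div_le_div_of_nonneg_right (mul_le_mul_of_nonneg_right (le_abs_self _) h3.le) hx0.le
    refine (abs_sum_le_sum_abs _ _).trans ((sum_le_sum h1).trans ?_)
    rw [← sum_mul]
    exact mul_le_mul_of_nonneg_right (hTk k hk) (by positivity)
  have h3 := abs_sub_le (∑ ψ : 𝓞 K →+* ZMod p, av (fun c => if Bad ψ c then 0 else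
          (((zeros (eval₂Hom ψ c) (fam E f) : ℝ) - tt w D r p) / x ^ D) ^ k))
        (∑ ψ : 𝓞 K →+* ZMod p, ∑ l ∈ range (ν + 1), (mid (vv w D r) k l : ℝ) * ((zeros ψ (E ∪ Set.range h) : ℝ) / x ^ D) ^ l)
        (∑ l ∈ range (ν + 1), (mid (vv w D r) k l : ℝ) * ∑ j, (Nat.card (𝓞 (L l j) →+* ZMod p) : ℝ))
  refine h3.trans ((add_le_add hsum1 hsum2).trans (le_of_eq ?_))
  ring

end

end Q282GP
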