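import Pool.Agent.Q282.GP.Ind
import Pool.Agent.Q282.GH.Cnt

/-!
# Point counts of the members of a family of complete intersections, over a prime field
-/

set_option autoImplicit false
set_option linter.unusedSectionVars false

namespace Q282GP

open Finset MvPolynomial
open scoped LinearAlgebra.Projectivization
open Q282RH (Pt Recur)
open Q282GH (zeros Through gval gval_mul gval_sum gval_C gval_int free zeros_eq gval_zero_of_span zeros_base)

/-- the generic equations -/
noncomputable def gen {O : Type} [CommRing O] {n : ℕ} {A : Type} {ι : A → Type} [∀ a, Fintype (ι a)]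
    (f : (a : A) → ι a → MvPolynomial (Fin (n + 1)) O) (a : A) : MvPolynomial (Fin (n + 1)) (MvPolynomial (Σ a, ι a) O) :=
  ∑ k, C (X ⟨a, k⟩) * map C (f a k)

/-- the equations of the generic complete intersection in the scheme with the equations `E` -/
noncomputable def fam {O : Type} [CommRing O] {n : ℕ} {A : Type} {ι : A → Type} [∀ a, Fintype (ι a)]
    (E : Set (MvPolynomial (Fin (n + 1)) O)) (f : (a : A) → ι a → MvPolynomial (Fin (n + 1)) O) :
    Set (MvPolynomial (Fin (n + 1)) (MvPolynomial (Σ a, ι a) O)) :=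
  Set.range (gen f) ∪ (map C : MvPolynomial (Fin (n + 1)) O →+* _) '' E

/-- the centred indicator function of zero -/
noncomputable def x0 (A : Type) [Fintype A] [DecidableEq A] (p : ℕ) (u : A → ZMod p) : ℝ :=
  (if u = 0 then 1 else 0) - 1 / (p : ℝ) ^ Fintype.card A

section

variable {A : Type} [Fintype A] [DecidableEq A] {p : ℕ} [hp : Fact p.Prime]

lemma card_H : (Fintype.card (A → ZMod p) : ℝ) = (p : ℝ) ^ Fintype.card A := by
  rw [Fintype.card_fun, ZMod.card]
  push_cast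
  rfl

lemma pr_pos : (0 : ℝ) < (p : ℝ) ^ Fintype.card A := by
  have : (0 : ℝ) < p := by exact_mod_cast hp.out.pos
  positivity

lemma pr_one : (1 : ℝ) ≤ (p : ℝ) ^ Fintype.card A := by
  have : (1 : ℝ) ≤ p := by exact_mod_cast hp.out.one_lt.le
  exact one_le_pow₀ this

lemma av_ind : av (fun u : A → ZMod p => if u = 0 then (1 : ℝ) else 0) = 1 / (p : ℝ) ^ Fintype.card A := by
  unfold av
  rw [sum_ite_eq' univ (0 : A → ZMod p), if_pos (mem_univ _), card_H]

lemma av_x0 : av (x0 A p) = 0 := by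
  unfold x0
  rw [av_sub, av_ind, av_const, sub_self]

lemma av_x0_sq : av (fun u => x0 A p u ^ 2) = 1 / (p : ℝ) ^ Fintype.card A * (1 - 1 / (p : ℝ) ^ Fintype.card A) := by
  have h1 : (fun u => x0 A p u ^ 2) = fun u => (1 - 2 * (1 / (p : ℝ) ^ Fintype.card A)) * (if u = 0 then (1 : ℝ) else 0) +
      (1 / (p : ℝ) ^ Fintype.card A) ^ 2 := by
    funext u
    unfold x0
    split_ifs <;> ring
  rw [h1, av_add, av_smul, av_ind, av_const]
  ring

lemma x0_le (u : A → ZMod p) : |x0 A p u| ≤ 1 := by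
  have h1 : 1 / (p : ℝ) ^ Fintype.card A ≤ 1 := by
    rw [div_le_one pr_pos]
    exact pr_one
  have h2 : 0 < 1 / (p : ℝ) ^ Fintype.card A := by
    have := pr_pos (A := A) (p := p)
    positivity
  unfold x0
  rw [abs_le]
  split_ifs <;> constructor <;> linarith

end

section

variable {O : Type} [CommRing O] {n p : ℕ} [hp : Fact p.Prime] (ψ : O →+* ZMod p)

lemma gval_prod {κ : Type} (s : Finset κ) (F : κ → MvPolynomial (Fin (n + 1)) O) (P : Pt n p) :
    gval ψ (∏ k ∈ s, F k) P = ∏ k ∈ s, gval ψ (F k) P := eval₂_prod _ _ _ _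

/-- **Separation of points.** -/
theorem sepK (K : ℕ) {J ι : Type} [Fintype ι] {h : J → MvPolynomial (Fin (n + 1)) O} {e : J → ℕ} {d : ℕ}
    {f : ι → MvPolynomial (Fin (n + 1)) O} (hh : ∀ j, (h j).IsHomogeneous (e j)) (hd : ∀ j, e j + K ≤ d)
    (hf : Through h d f) (P : Pt n p) (S : Finset (Pt n p)) (hPS : P ∉ S) (hS : S.card ≤ K) (hP : ∃ j, gval ψ (h j) P ≠ 0) :
    ∃ b : ι → ZMod p, ∑ k, b k * gval ψ (f k) P = 1 ∧ ∀ Q ∈ S, ∑ k, b k * gval ψ (f k) Q = 0 := by
  classical
  obtain ⟨j, hj⟩ := hP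
  have hl : ∀ Q ∈ S, ∃ l : MvPolynomial (Fin (n + 1)) ℤ, l.IsHomogeneous 1 ∧ Q282RH.val l Q = 0 ∧ Q282RH.val l P ≠ 0 := by
    intro Q hQ
    refine Q282RH.exists_linear P Q ?_
    rintro rfl
    exact hPS hQ
  choose! l hl1 hl2 hl3 using hl
  obtain ⟨i, hi⟩ : ∃ i, P.rep i ≠ 0 := by
    by_contra h0
    push Not at h0
    exact P.rep_nonzero (funext h0)
  have hcard : e j + S.card + (d - e j - S.card) = d := by
    have := hd j
    omega
  obtain ⟨a, ha⟩ := hf.gen (h j * (∏ Q ∈ S, map (Int.castRingHom O) (l Q)) * X i ^ (d - e j - S.card)) (by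
    have h1 : (∏ Q ∈ S, map (Int.castRingHom O) (l Q)).IsHomogeneous S.card := by
      have := IsHomogeneous.prod S (fun Q => map (Int.castRingHom O) (l Q)) (fun _ => 1) (fun Q hQ => (hl1 Q hQ).map _)
      rw [sum_const, smul_eq_mul, mul_one] at this
      exact this
    have h2 : ((X i : MvPolynomial (Fin (n + 1)) O) ^ (d - e j - S.card)).IsHomogeneous (d - e j - S.card) := by
      have := (isHomogeneous_X O i).pow (d - e j - S.card)
      rw [one_mul] at this
      exact this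
    have := ((hh j).mul h1).mul h2
    rw [hcard] at this
    exact this) (by
    rw [mul_assoc]
    exact Ideal.mul_mem_right _ _ (Ideal.subset_span ⟨j, rfl⟩))
  have hval : ∀ Q : Pt n p, ∑ k, ψ (a k) * gval ψ (f k) Q =
      gval ψ (h j) Q * (∏ Q' ∈ S, Q282RH.val (l Q') Q) * Q.rep i ^ (d - e j - S.card) := by
    intro Q
    have h1 : gval ψ (h j * (∏ Q' ∈ S, map (Int.castRingHom O) (l Q')) * X i ^ (d - e j - S.card)) Q =
        ∑ k, ψ (a k) * gval ψ (f k) Q := by
      rw [ha, gval_sum]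
      refine sum_congr rfl fun k _ => ?_
      rw [gval_mul, gval_C]
    rw [← h1, gval_mul, gval_mul, gval_prod]
    simp only [gval_int]
    congr 1
    unfold gval
    rw [eval₂_pow, eval₂_X]
  obtain ⟨u, hu⟩ : ∃ u : ZMod p, u = gval ψ (h j) P * (∏ Q' ∈ S, Q282RH.val (l Q') P) * P.rep i ^ (d - e j - S.card) := ⟨_, rfl⟩
  have hu0 : u ≠ 0 := by
    rw [hu]
    exact mul_ne_zero (mul_ne_zero hj (prod_ne_zero_iff.2 fun Q hQ => hl3 Q hQ)) (pow_ne_zero _ hi)
  refine ⟨fun k => u⁻¹ * ψ (a k), ?_, ?_⟩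
  · have h1 : ∑ k, u⁻¹ * ψ (a k) * gval ψ (f k) P = u⁻¹ * ∑ k, ψ (a k) * gval ψ (f k) P := by
      rw [mul_sum]
      exact sum_congr rfl fun k _ => by ring
    rw [h1, hval, ← hu, inv_mul_cancel₀ hu0]
  · intro Q hQ
    have h1 : ∑ k, u⁻¹ * ψ (a k) * gval ψ (f k) Q = u⁻¹ * ∑ k, ψ (a k) * gval ψ (f k) Q := by
      rw [mul_sum]
      exact sum_congr rfl fun k _ => by ring
    have h2 : ∏ Q' ∈ S, Q282RH.val (l Q') Q = 0 := prod_eq_zero hQ (hl2 Q hQ)
    rw [h1, hval, h2, mul_zero, zero_mul, mul_zero]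

variable {A : Type} [Fintype A] [DecidableEq A] {ι : A → Type} [∀ a, Fintype (ι a)] [∀ a, DecidableEq (ι a)]

/-- the values of the equations at a point -/
noncomputable def vals (f : (a : A) → ι a → MvPolynomial (Fin (n + 1)) O) (P : Pt n p) (c : (Σ a, ι a) → ZMod p) (a : A) : ZMod p :=
  ∑ k, c ⟨a, k⟩ * gval ψ (f a k) P

theorem sepF (K : ℕ) {J : Type} {h : J → MvPolynomial (Fin (n + 1)) O} {e : J → ℕ} {d : A → ℕ}
    {f : (a : A) → ι a → MvPolynomial (Fin (n + 1)) O} (hh : ∀ j, (h j).IsHomogeneous (e j)) (hd : ∀ j a, e j + K ≤ d a)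
    (hf : ∀ a, Through h (d a) (f a)) (E : Set (MvPolynomial (Fin (n + 1)) O)) : SepF K (vals ψ f) (free ψ E h) := by
  classical
  intro P hP S hS hPS hSK
  unfold free at hP
  rw [mem_filter] at hP
  choose b hb1 hb2 using fun a => sepK ψ K hh (fun j => hd j a) (hf a) P S hPS hSK hP.2.2
  refine ⟨fun t x => t x.1 * b x.1 x.2, ?_, ?_⟩
  · intro c t
    funext a
    unfold vals
    rw [Pi.add_apply]
    have h1 : ∑ k, (c + fun x : (Σ a, ι a) => t x.1 * b x.1 x.2) ⟨a, k⟩ * gval ψ (f a k) P =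
        ∑ k, c ⟨a, k⟩ * gval ψ (f a k) P + t a * ∑ k, b a k * gval ψ (f a k) P := by
      rw [mul_sum, ← sum_add_distrib]
      refine sum_congr rfl fun k _ => ?_
      rw [Pi.add_apply]
      ring
    rw [h1, hb1, mul_one]
  · intro Q hQ c t
    funext a
    unfold vals
    have h1 : ∑ k, (c + fun x : (Σ a, ι a) => t x.1 * b x.1 x.2) ⟨a, k⟩ * gval ψ (f a k) Q =
        ∑ k, c ⟨a, k⟩ * gval ψ (f a k) Q + t a * ∑ k, b a k * gval ψ (f a k) Q := by
      rw [mul_sum, ← sum_add_distrib]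
      refine sum_congr rfl fun k _ => ?_
      rw [Pi.add_apply]
      ring
    rw [h1, hb2 a Q hQ, mul_zero, add_zero]

/-- the deviation of the number of points -/
noncomputable def gdev (E : Set (MvPolynomial (Fin (n + 1)) O)) {J : Type} (h : J → MvPolynomial (Fin (n + 1)) O)
    (f : (a : A) → ι a → MvPolynomial (Fin (n + 1)) O) (c : (Σ a, ι a) → ZMod p) : ℝ :=
  ∑ P ∈ free ψ E h, x0 A p (vals ψ f P c)

theorem recur_gdev (K : ℕ) {J : Type} {h : J → MvPolynomial (Fin (n + 1)) O} {e : J → ℕ} {d : A → ℕ}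
    {f : (a : A) → ι a → MvPolynomial (Fin (n + 1)) O} (hh : ∀ j, (h j).IsHomogeneous (e j)) (hd : ∀ j a, e j + K ≤ d a)
    (hf : ∀ a, Through h (d a) (f a)) (E : Set (MvPolynomial (Fin (n + 1)) O)) :
    Recur (K + 1) 1 (free ψ E h) (fun S k => av (fun c => (∑ Q ∈ S, x0 A p (vals ψ f Q c)) ^ k)) (fun _ j => av (fun u => x0 A p u ^ j))
      (fun _ => av (fun u => x0 A p u ^ 2)) :=
  recur_gen K (vals ψ f) (x0 A p) av_x0 x0_le (free ψ E h) (sepF ψ K hh hd hf E)

lemma eval_gen (f : (a : A) → ι a → MvPolynomial (Fin (n + 1)) O) (c : (Σ a, ι a) → ZMod p) (P : Pt n p) (a : A) :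
    eval₂ (eval₂Hom ψ c) P.rep (gen f a) = vals ψ f P c a := by
  unfold gen vals
  rw [eval₂_sum]
  refine sum_congr rfl fun k _ => ?_
  rw [eval₂_mul, eval₂_C, Q282GH.eval_map, coe_eval₂Hom, eval₂_X]

/-- the number of the points of a member -/
theorem zeros_fam {J : Type} {h : J → MvPolynomial (Fin (n + 1)) O} {d : A → ℕ} {f : (a : A) → ι a → MvPolynomial (Fin (n + 1)) O}
    (hf : ∀ a, Through h (d a) (f a)) (E : Set (MvPolynomial (Fin (n + 1)) O)) (c : (Σ a, ι a) → ZMod p) :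
    (zeros (eval₂Hom ψ c) (fam E f) : ℝ) = zeros ψ (E ∪ Set.range h) +
      ((zeros ψ E : ℝ) - zeros ψ (E ∪ Set.range h)) / (p : ℝ) ^ Fintype.card A + gdev ψ E h f c := by
  classical
  have h1 : zeros (eval₂Hom ψ c) (fam E f) = ((univ.filter fun P : Pt n p => ∀ F ∈ E ∪ Set.range h, gval ψ F P = 0) ∪
        (free ψ E h).filter fun P => vals ψ f P c = 0).card := by
    unfold zeros
    rw [Nat.card_eq_fintype_card, Fintype.card_subtype]
    congr 1
    ext P
    unfold free fam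
    simp only [mem_union, mem_filter, mem_univ, true_and]
    constructor
    · intro hP
      have h3 : vals ψ f P c = 0 := by
        funext a
        rw [← eval_gen]
        exact hP _ (Or.inl ⟨a, rfl⟩)
      have h4 : ∀ F ∈ E, gval ψ F P = 0 := fun F hF => by
        rw [← Q282GH.eval_map ψ (Σ a, ι a) c]
        exact hP _ (Or.inr ⟨F, hF, rfl⟩)
      by_cases h2 : ∃ j, gval ψ (h j) P ≠ 0
      · exact Or.inr ⟨⟨h4, h2⟩, h3⟩
      · push Not at h2
        refine Or.inl ?_
        rintro F (hF | ⟨j, rfl⟩)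
        · exact h4 F hF
        · exact h2 j
    · rintro (hP | hP)
      · rintro G (⟨a, rfl⟩ | ⟨F, hF, rfl⟩)
        · rw [eval_gen]
          unfold vals
          refine sum_eq_zero fun k _ => ?_
          rw [gval_zero_of_span ψ (fun j => hP _ (Or.inr ⟨j, rfl⟩)) ((hf a).mem k), mul_zero]
        · rw [Q282GH.eval_map]
          exact hP F (Or.inl hF)
      · rintro G (⟨a, rfl⟩ | ⟨F, hF, rfl⟩)
        · rw [eval_gen]
          exact congrFun hP.2 a
        · rw [Q282GH.eval_map]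
          exact hP.1.1 F hF
  have h2 : Disjoint (univ.filter fun P : Pt n p => ∀ F ∈ E ∪ Set.range h, gval ψ F P = 0)
      ((free ψ E h).filter fun P => vals ψ f P c = 0) := by
    rw [disjoint_left]
    intro P hP hP'
    unfold free at hP'
    rw [mem_filter, mem_filter] at hP'
    rw [mem_filter] at hP
    obtain ⟨j, hj⟩ := hP'.1.2.2
    exact hj (hP.2 _ (Or.inr ⟨j, rfl⟩))
  rw [h1, card_union_of_disjoint h2, card_filter (p := fun P => vals ψ f P c = 0), ← zeros_eq]
  unfold gdev x0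
  rw [sum_sub_distrib, sum_const, nsmul_eq_mul, zeros_base ψ E h]
  push_cast
  ring

end

end Q282GP
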