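import Pool.Agent.Q282.RH.Rec

/-!
# Sums of random variables on a finite group that are independent up to a given order
-/

set_option autoImplicit false
set_option linter.unusedSectionVars false

namespace Q282GP

open Finset
open Q282RH (Recur)

/-- the average of a function on a finite set -/
noncomputable def av {Γ : Type} [Fintype Γ] (F : Γ → ℝ) : ℝ := (∑ a, F a) / Fintype.card Γ

section

variable {Γ : Type} [Fintype Γ]

lemma av_add (F G : Γ → ℝ) : av (fun a => F a + G a) = av F + av G := by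
  unfold av
  rw [sum_add_distrib, add_div]

lemma av_sub (F G : Γ → ℝ) : av (fun a => F a - G a) = av F - av G := by
  unfold av
  rw [sum_sub_distrib, sub_div]

lemma av_smul (c : ℝ) (F : Γ → ℝ) : av (fun a => c * F a) = c * av F := by
  unfold av
  rw [← mul_sum, mul_div_assoc]

lemma av_sum {κ : Type} (s : Finset κ) (F : κ → Γ → ℝ) : av (fun a => ∑ k ∈ s, F k a) = ∑ k ∈ s, av (F k) := by
  unfold av
  rw [sum_comm, sum_div]

lemma av_const [Nonempty Γ] (c : ℝ) : av (fun _ : Γ => c) = c := by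
  unfold av
  have h : (Fintype.card Γ : ℝ) ≠ 0 := by exact_mod_cast Fintype.card_ne_zero
  rw [sum_const, card_univ, nsmul_eq_mul, mul_comm, mul_div_assoc, div_self h, mul_one]

lemma av_nonneg (F : Γ → ℝ) (h : ∀ a, 0 ≤ F a) : 0 ≤ av F := div_nonneg (sum_nonneg fun a _ => h a) (Nat.cast_nonneg _)

lemma av_mono (F G : Γ → ℝ) (h : ∀ a, F a ≤ G a) : av F ≤ av G :=
  div_le_div_of_nonneg_right (sum_le_sum fun a _ => h a) (Nat.cast_nonneg _)

lemma abs_av (F : Γ → ℝ) : |av F| ≤ av (fun a => |F a|) := by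
  unfold av
  rw [abs_div, abs_of_nonneg (show (0 : ℝ) ≤ Fintype.card Γ from Nat.cast_nonneg _)]
  exact div_le_div_of_nonneg_right (abs_sum_le_sum_abs _ _) (Nat.cast_nonneg _)

/-- the inequality of Cauchy and Schwarz -/
lemma av_cs (F G : Γ → ℝ) : (av fun a => F a * G a) ^ 2 ≤ av (fun a => F a ^ 2) * av (fun a => G a ^ 2) := by
  unfold av
  rw [div_pow, div_mul_div_comm, sq (Fintype.card Γ : ℝ)]
  exact div_le_div_of_nonneg_right (sum_mul_sq_le_sq_mul_sq _ _ _) (by positivity)

end

section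

variable {Γ H : Type} [Fintype Γ] [AddCommGroup Γ] [Fintype H] [AddCommGroup H]

lemma av_indep (φ : Γ → H) (s : H → Γ) (hs : ∀ a t, φ (a + s t) = φ a + t) (G : Γ → ℝ) (hG : ∀ a t, G (a + s t) = G a) (g : H → ℝ) :
    av (fun a => G a * g (φ a)) = av G * av g := by
  have h0 : (Fintype.card H : ℝ) ≠ 0 := by exact_mod_cast Fintype.card_ne_zero
  have h0' : (Fintype.card Γ : ℝ) ≠ 0 := by exact_mod_cast Fintype.card_ne_zero
  have h1 : ∀ t : H, ∑ a, G a * g (φ a) = ∑ a, G a * g (φ a + t) := by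
    intro t
    have h2 := Equiv.sum_comp (Equiv.addRight (s t)) (fun a => G a * g (φ a))
    rw [← h2]
    refine sum_congr rfl fun a _ => ?_
    rw [Equiv.coe_addRight, hG, hs]
  have h3 : (Fintype.card H : ℝ) * ∑ a, G a * g (φ a) = (∑ a, G a) * ∑ u, g u := by
    have h4 : ∑ t : H, ∑ a, G a * g (φ a) = ∑ t : H, ∑ a, G a * g (φ a + t) :=
      sum_congr rfl fun t _ => h1 t
    rw [sum_const, card_univ, nsmul_eq_mul] at h4
    rw [h4, sum_comm, sum_mul]
    refine sum_congr rfl fun a _ => ?_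
    rw [← mul_sum]
    congr 1
    exact Equiv.sum_comp (Equiv.addLeft (φ a)) g
  unfold av
  rw [div_mul_div_comm, div_eq_div_iff h0' (by positivity)]
  calc (∑ a, G a * g (φ a)) * ((Fintype.card Γ : ℝ) * Fintype.card H) =
        ((Fintype.card H : ℝ) * ∑ a, G a * g (φ a)) * (Fintype.card Γ : ℝ) := by ring
    _ = _ := by rw [h3]

variable {P' : Type} [DecidableEq P']

/-- the values at any `K + 1` points of `T` are independent -/
def SepF (K : ℕ) (φ : P' → Γ → H) (T : Finset P') : Prop :=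
  ∀ P ∈ T, ∀ S ⊆ T, P ∉ S → S.card ≤ K → ∃ s : H → Γ, (∀ a t, φ P (a + s t) = φ P a + t) ∧ ∀ Q ∈ S, ∀ a t, φ Q (a + s t) = φ Q a

lemma av_powK (K : ℕ) (φ : P' → Γ → H) (X : H → ℝ) (T : Finset P') (P : P') (hP : P ∉ T)
    (hsep : SepF K φ (insert P T)) (j : ℕ) (hj : j ≤ K) (g : H → ℝ) :
    av (fun a => (∑ Q ∈ T, X (φ Q a)) ^ j * g (φ P a)) = av (fun a => (∑ Q ∈ T, X (φ Q a)) ^ j) * av g := by
  have h1 : ∀ a, (∑ Q ∈ T, X (φ Q a)) ^ j = ∑ f ∈ Fintype.piFinset (fun _ : Fin j => T), ∏ i, X (φ (f i) a) := by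
    intro a
    have := prod_univ_sum (fun _ : Fin j => T) (fun _ Q => X (φ Q a))
    rw [← this, prod_const, card_univ, Fintype.card_fin]
  have h2 : av (fun a => (∑ Q ∈ T, X (φ Q a)) ^ j * g (φ P a)) =
      ∑ f ∈ Fintype.piFinset (fun _ : Fin j => T), av (fun a => (∏ i, X (φ (f i) a)) * g (φ P a)) := by
    rw [← av_sum]
    congr 1
    funext a
    rw [h1 a, sum_mul]
  have h3 : av (fun a => (∑ Q ∈ T, X (φ Q a)) ^ j) =
      ∑ f ∈ Fintype.piFinset (fun _ : Fin j => T), av (fun a => ∏ i, X (φ (f i) a)) := by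
    rw [← av_sum]
    congr 1
    funext a
    rw [h1 a]
  rw [h2, h3, sum_mul]
  refine sum_congr rfl fun f hf => ?_
  rw [Fintype.mem_piFinset] at hf
  have hS : univ.image f ⊆ insert P T := by
    intro Q hQ
    rw [mem_image] at hQ
    obtain ⟨i, _, rfl⟩ := hQ
    exact mem_insert_of_mem (hf i)
  have hPS : P ∉ univ.image f := by
    intro h4
    rw [mem_image] at h4
    obtain ⟨i, _, h5⟩ := h4
    exact hP (h5 ▸ hf i)
  obtain ⟨s, hs1, hs2⟩ := hsep P (mem_insert_self _ _) (univ.image f) hS hPS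
    (card_image_le.trans (by rw [card_univ, Fintype.card_fin]; exact hj))
  refine av_indep (φ P) s hs1 (fun a => ∏ i, X (φ (f i) a)) ?_ g
  intro a t
  refine prod_congr rfl fun i _ => ?_
  rw [hs2 (f i) (mem_image_of_mem f (mem_univ i))]

/-- **The recursion of the moments.** -/
theorem recur_gen (K : ℕ) (φ : P' → Γ → H) (X : H → ℝ) (hX : av X = 0)
    (hX1 : ∀ u, |X u| ≤ 1) (T : Finset P') (hsep : SepF K φ T) :
    Recur (K + 1) 1 T (fun S k => av (fun a => (∑ Q ∈ S, X (φ Q a)) ^ k)) (fun _ j => av (fun u => X u ^ j))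
      (fun _ => av (fun u => X u ^ 2)) where
  empty k := by
    simp only [sum_empty]
    split_ifs with hk
    · rw [hk]
      simp only [pow_zero]
      exact av_const 1
    · simp only [zero_pow hk]
      exact av_const 0
  step P hP S hS hPS k hk := by
    have hsep' : SepF K φ (insert P S) := by
      intro Q hQ S' hS'
      refine hsep Q ?_ S' (hS'.trans ?_)
      · rcases mem_insert.1 hQ with rfl | hQ
        · exact hP
        · exact hS hQ
      · exact insert_subset hP hS
    have h1 : (fun a => (∑ Q ∈ insert P S, X (φ Q a)) ^ k) =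
        fun a => ∑ j ∈ range (k + 1), (k.choose j : ℝ) * ((∑ Q ∈ S, X (φ Q a)) ^ (k - j) * X (φ P a) ^ j) := by
      funext a
      rw [sum_insert hPS, add_pow]
      refine sum_congr rfl fun j _ => ?_
      ring
    rw [h1, av_sum]
    refine sum_congr rfl fun j hj => ?_
    rw [av_smul]
    rw [mem_range] at hj
    rcases Nat.eq_zero_or_pos j with rfl | hj0
    · simp only [pow_zero, mul_one, Nat.sub_zero]
      rw [av_const, mul_one]
    · rw [av_powK K φ X S P hPS hsep' (k - j) (by omega) (fun u => X u ^ j)]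
      ring
  zero P _ := by
    simp only [pow_zero]
    exact av_const 1
  one P _ := by
    simp only [pow_one]
    exact hX
  two P _ := rfl
  pow P _ j hj := by
    rw [one_pow, one_mul]
    refine (abs_av _).trans (av_mono _ _ fun u => ?_)
    rw [abs_pow, ← sq_abs]
    exact pow_le_pow_of_le_one (abs_nonneg _) (hX1 u) hj
  nonneg P _ := av_nonneg _ fun u => sq_nonneg _
  le P _ := by
    rw [one_pow, ← av_const (Γ := H) 1]
    refine av_mono _ _ fun u => ?_
    rw [← sq_abs]
    exact pow_le_one₀ (abs_nonneg _) (hX1 u)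

end

end Q282GP
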