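import Pool.Agent.Q282.GP.Ave
import Mathlib.RingTheory.PowerSeries.Substitution

/-!
# The formula of Künneth for the eigenvalues of Frobenius
-/

set_option autoImplicit false
set_option linter.unusedSectionVars false

namespace Q282GP

open Finset

/-- the eigenvalues on the cohomology in degree `j` of the product of `ν` varieties with the eigenvalues `coh b` in degree `b` -/
noncomputable def kun (coh : ℕ → Multiset ℂ) : ℕ → ℕ → Multiset ℂ
  | 0, j => if j = 0 then {1} else 0
  | ν + 1, j => ∑ x ∈ antidiagonal j, (coh x.1 ×ˢ kun coh ν x.2).map (fun z => z.1 * z.2)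

/-- the eigenvalues on the cohomology in degree `b` of a member with the eigenvalues `α` in the middle degree `D` -/
noncomputable def coh (w : ℕ → ℕ) (D r q : ℕ) (α : Multiset ℂ) (b : ℕ) : Multiset ℂ :=
  if b = D then α else if Even b then Multiset.replicate (oc w D r (b / 2)) ((q : ℂ) ^ (b / 2)) else 0

/-- the generating series of the Betti numbers outside the middle degree -/
noncomputable def oser (w : ℕ → ℕ) (D r : ℕ) : PowerSeries ℕ := PowerSeries.mk fun b => if Even b then oc w D r (b / 2) else 0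

lemma prod_sum (M N : Multiset ℂ) : ((M ×ˢ N).map (fun z => z.1 * z.2)).sum = M.sum * N.sum := by
  induction M using Multiset.induction_on with
  | empty => simp
  | cons a M ih =>
    rw [Multiset.cons_product, Multiset.map_add, Multiset.sum_add, ih, Multiset.map_map, Multiset.sum_cons, add_mul]
    congr 1
    have : ((fun z : ℂ × ℂ => z.1 * z.2) ∘ Prod.mk a) = fun b => a * b := rfl
    rw [this, Multiset.sum_map_mul_left, Multiset.map_id']

lemma sum_sum {κ : Type} (s : Finset κ) (F : κ → Multiset ℂ) : (∑ k ∈ s, F k).sum = ∑ k ∈ s, (F k).sum :=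
  map_sum (Multiset.sumAddMonoidHom : Multiset ℂ →+ ℂ) F s

theorem kun_sum (coh : ℕ → Multiset ℂ) (ν j : ℕ) :
    (kun coh ν j).sum = PowerSeries.coeff j ((PowerSeries.mk fun b => (coh b).sum) ^ ν) := by
  induction ν generalizing j with
  | zero =>
    rw [pow_zero, PowerSeries.coeff_one]
    unfold kun
    split_ifs <;> simp
  | succ ν ih =>
    rw [pow_succ', PowerSeries.coeff_mul]
    unfold kun
    rw [sum_sum]
    refine sum_congr rfl fun x _ => ?_
    rw [prod_sum, ih, PowerSeries.coeff_mk]

theorem kun_card (coh : ℕ → Multiset ℂ) (ν j : ℕ) :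
    (kun coh ν j).card = PowerSeries.coeff j ((PowerSeries.mk fun b => (coh b).card) ^ ν) := by
  induction ν generalizing j with
  | zero =>
    rw [pow_zero, PowerSeries.coeff_one]
    unfold kun
    split_ifs <;> simp
  | succ ν ih =>
    rw [pow_succ', PowerSeries.coeff_mul]
    unfold kun
    rw [Multiset.card_sum]
    refine sum_congr rfl fun x _ => ?_
    rw [Multiset.card_map, Multiset.card_product, ih, PowerSeries.coeff_mk]

theorem kun_norm (coh : ℕ → Multiset ℂ) (u : ℝ) (hu : 0 ≤ u) (hc : ∀ b, ∀ a ∈ coh b, ‖a‖ ≤ u ^ b) (ν j : ℕ) :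
    ∀ a ∈ kun coh ν j, ‖a‖ ≤ u ^ j := by
  induction ν generalizing j with
  | zero =>
    intro a ha
    unfold kun at ha
    split_ifs at ha with h
    · rw [Multiset.mem_singleton] at ha
      rw [ha, h]
      simp
    · simp at ha
  | succ ν ih =>
    intro a ha
    unfold kun at ha
    rw [Multiset.mem_sum] at ha
    obtain ⟨x, hx, ha⟩ := ha
    rw [HasAntidiagonal.mem_antidiagonal] at hx
    rw [Multiset.mem_map] at ha
    obtain ⟨z, hz, rfl⟩ := ha
    rw [Multiset.mem_product] at hz
    rw [norm_mul, ← hx, pow_add]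
    exact mul_le_mul (hc _ _ hz.1) (ih _ _ hz.2) (norm_nonneg _) (pow_nonneg hu _)

lemma coh_card (w : ℕ → ℕ) (D r q : ℕ) (α : Multiset ℂ) (B : ℕ) (hB : α.card = B) (b : ℕ) :
    (coh w D r q α b).card = if b = D then B else if Even b then oc w D r (b / 2) else 0 := by
  unfold coh
  split_ifs
  · exact hB
  · exact Multiset.card_replicate _ _
  · exact Multiset.card_zero

lemma coh_norm (w : ℕ → ℕ) (D r q : ℕ) (α : Multiset ℂ) (u : ℝ) (hq : (q : ℝ) = u ^ 2) (hα : ∀ a ∈ α, ‖a‖ ≤ u ^ D) (b : ℕ) :
    ∀ a ∈ coh w D r q α b, ‖a‖ ≤ u ^ b := by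
  intro a ha
  unfold coh at ha
  split_ifs at ha with h1 h2
  · rw [h1]
    exact hα a ha
  · rw [Multiset.eq_of_mem_replicate ha, norm_pow, Complex.norm_natCast, hq, ← pow_mul]
    obtain ⟨m, hm⟩ := h2
    rw [show 2 * (b / 2) = b by omega]
  · simp at ha

lemma oc_mid (w : ℕ → ℕ) (D r : ℕ) (h : Even D) : oc w D r (D / 2) = 0 := by
  obtain ⟨m, hm⟩ := h
  unfold oc
  rw [if_neg (by omega), if_neg (by omega)]

/-- **The trace of Frobenius on the cohomology of a power.** -/
theorem trace (w : ℕ → ℕ) (D r q : ℕ) (α : Multiset ℂ) (u τ : ℂ) (hq : (q : ℂ) = u ^ 2) (hα : α.sum = (-1) ^ D * (τ * u ^ D)) (ν i : ℕ) :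
    (kun (coh w D r q α) ν (2 * i)).sum = (q : ℂ) ^ i * ∑ k ∈ range (ν + 1),
      ((ν.choose k * (if D * k ≤ 2 * i then PowerSeries.coeff (2 * i - D * k) (oser w D r ^ (ν - k)) else 0) : ℕ) : ℂ) * τ ^ k := by
  obtain ⟨S, hS⟩ : ∃ S : PowerSeries ℂ, S = PowerSeries.C τ * PowerSeries.X ^ D + PowerSeries.map (Nat.castRingHom ℂ) (oser w D r) := ⟨_, rfl⟩
  have h1 : (PowerSeries.mk fun b => (coh w D r q α b).sum) = PowerSeries.rescale (-u) S := by
    ext b
    rw [PowerSeries.coeff_mk, PowerSeries.coeff_rescale, hS, map_add, PowerSeries.coeff_C_mul, PowerSeries.coeff_X_pow,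
      PowerSeries.coeff_map]
    unfold coh oser
    rw [PowerSeries.coeff_mk]
    by_cases hb : b = D
    · rw [if_pos hb, if_pos hb, hb, hα]
      have h2 : (if Even D then oc w D r (D / 2) else 0) = 0 := by
        split_ifs with hD
        · exact oc_mid w D r hD
        · rfl
      rw [h2, map_zero, neg_pow]
      ring
    · rw [if_neg hb, if_neg hb, mul_zero, zero_add]
      split_ifs with hev
      · rw [Multiset.sum_replicate, nsmul_eq_mul, hq, ← pow_mul, Nat.coe_castRingHom, hev.neg_pow]
        obtain ⟨m, hm⟩ := hev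
        rw [show 2 * (b / 2) = b by omega]
        ring
      · rw [map_zero, mul_zero, Multiset.sum_zero]
  rw [kun_sum, h1, ← map_pow, PowerSeries.coeff_rescale, (even_two_mul i).neg_pow, pow_mul, ← hq]
  congr 1
  rw [hS, add_pow, map_sum]
  refine sum_congr rfl fun k _ => ?_
  have h2 : (PowerSeries.C τ * PowerSeries.X ^ D) ^ k * (PowerSeries.map (Nat.castRingHom ℂ) (oser w D r)) ^ (ν - k) * ((ν.choose k : ℕ) : PowerSeries ℂ) =
      PowerSeries.C (τ ^ k * (ν.choose k : ℂ)) * (PowerSeries.X ^ (D * k) * PowerSeries.map (Nat.castRingHom ℂ) (oser w D r ^ (ν - k))) := by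
    rw [map_mul, map_pow, map_pow, mul_pow, map_natCast, ← pow_mul]
    ring
  rw [h2, PowerSeries.coeff_C_mul, PowerSeries.coeff_X_pow_mul']
  split_ifs with h
  · rw [PowerSeries.coeff_map, Nat.coe_castRingHom]
    push_cast
    ring
  · simp

/-- a multiset with a given number of elements as a family -/
lemma exists_family (M : Multiset ℂ) (B : ℕ) (h : M.card = B) : ∃ f : Fin B → ℂ, M = univ.val.map f := by
  induction M using Quotient.inductionOn with
  | h l =>
    rw [Multiset.quot_mk_to_coe, Multiset.coe_card] at h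
    subst h
    refine ⟨l.get, ?_⟩
    rw [Multiset.quot_mk_to_coe]
    have h1 : (univ : Finset (Fin l.length)).val = ((List.finRange l.length : List (Fin l.length)) : Multiset (Fin l.length)) := rfl
    rw [h1, Multiset.map_coe]
    congr 1
    exact (List.map_get_finRange l).symm

end Q282GP
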