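import Pool.Agent.Q282.GP.Cnt

/-!
# The normalised moments of the number of points
-/

set_option autoImplicit false
set_option linter.unusedSectionVars false

namespace Q282GP

open Finset MvPolynomial
open Q282MM (gm)
open Q282RH (Pt Recur rec_main)
open Q282GH (zeros Through free zeros_base)

/-- the variance -/
lemma var_main (D r : ℕ) (hD : 1 ≤ D) (hr : 1 ≤ r) (w : ℕ → ℕ) (hw : w (D + r) = 1) (C₀ C₁ : ℝ) (hC₀ : 0 ≤ C₀) (hC₁ : 0 ≤ C₁) :
    ∃ c : ℝ, 0 ≤ c ∧ ∀ x W Z : ℝ, 1 ≤ x → 0 ≤ Z →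
      |W - ∑ j ∈ range (D + r + 1), w j * (x ^ 2) ^ j| ≤ C₀ * x ^ (2 * r + D - 1) → Z ≤ C₁ * x ^ D →
      |(W - Z) * (1 / (x ^ 2) ^ r * (1 - 1 / (x ^ 2) ^ r)) / (x ^ D) ^ 2 - 1| ≤ c / x := by
  obtain ⟨B, hB⟩ : ∃ B : ℝ, B = ∑ j ∈ range (D + r), (w j : ℝ) := ⟨_, rfl⟩
  have hB0 : 0 ≤ B := by
    rw [hB]
    positivity
  refine ⟨1 + 2 * (B + C₀ + C₁), by positivity, ?_⟩
  intro x W Z hx hZ0 hW hZ
  have hx0 : 0 < x := by linarith
  obtain ⟨y, hy⟩ : ∃ y : ℝ, y = x ^ (2 * (D + r) - 1) := ⟨_, rfl⟩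
  have hy0 : 0 < y := by
    rw [hy]
    positivity
  have hyx : x ^ (2 * (D + r)) = y * x := by
    rw [hy, ← pow_succ]
    congr 1
    omega
  have hle : ∀ k, k ≤ 2 * (D + r) - 1 → x ^ k ≤ y := fun k hk => by
    rw [hy]
    exact pow_le_pow_right₀ hx hk
  rw [sum_range_succ, hw, ← pow_mul x 2 (D + r)] at hW
  have h1 : |∑ j ∈ range (D + r), (w j : ℝ) * (x ^ 2) ^ j| ≤ B * y := by
    rw [abs_of_nonneg (sum_nonneg fun j _ => by positivity), hB, sum_mul]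
    refine sum_le_sum fun j hj => ?_
    rw [mem_range] at hj
    rw [← pow_mul]
    exact mul_le_mul_of_nonneg_left (hle _ (by omega)) (Nat.cast_nonneg _)
  have h2 : C₀ * x ^ (2 * r + D - 1) ≤ C₀ * y := mul_le_mul_of_nonneg_left (hle _ (by omega)) hC₀
  have h3 : C₁ * x ^ D ≤ C₁ * y := mul_le_mul_of_nonneg_left (hle _ (by omega)) hC₁
  have h4 : |(W - Z) - y * x| ≤ (B + C₀ + C₁) * y := by
    rw [← hyx]
    rw [abs_le] at hW h1 ⊢
    push_cast at hW
    constructor <;> linarith [hW.1, hW.2, h1.1, h1.2]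
  obtain ⟨a, ha⟩ : ∃ a : ℝ, a = (W - Z) / (y * x) := ⟨_, rfl⟩
  have h5 : |a - 1| ≤ (B + C₀ + C₁) / x := by
    have h6 : a - 1 = ((W - Z) - y * x) / (y * x) := by
      rw [ha]
      field_simp
    rw [h6, abs_div, abs_of_pos (by positivity : 0 < y * x), div_le_div_iff₀ (by positivity) hx0]
    calc |(W - Z) - y * x| * x ≤ (B + C₀ + C₁) * y * x := mul_le_mul_of_nonneg_right h4 hx0.le
      _ = _ := by ring
  have h6 : (W - Z) * (1 / (x ^ 2) ^ r * (1 - 1 / (x ^ 2) ^ r)) / (x ^ D) ^ 2 = a * (1 - 1 / (x ^ 2) ^ r) := by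
    have h7 : y * x = (x ^ 2) ^ r * (x ^ D) ^ 2 := by
      rw [← hyx, ← pow_mul, ← pow_mul, ← pow_add]
      congr 1
      ring
    rw [ha, h7]
    field_simp
  rw [h6]
  have h7 : 1 / (x ^ 2) ^ r ≤ 1 / x := by
    rw [← pow_mul]
    refine one_div_le_one_div_of_le hx0 ?_
    calc x = x ^ 1 := (pow_one x).symm
      _ ≤ x ^ (2 * r) := pow_le_pow_right₀ hx (by omega)
  have h8 : |a| ≤ 1 + (B + C₀ + C₁) := by
    have h9 : (B + C₀ + C₁) / x ≤ B + C₀ + C₁ := div_le_self (by positivity) hx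
    have h10 := abs_sub_abs_le_abs_sub a 1
    rw [abs_one] at h10
    linarith
  have h9 : a * (1 - 1 / (x ^ 2) ^ r) - 1 = (a - 1) - a * (1 / (x ^ 2) ^ r) := by ring
  rw [h9]
  calc |(a - 1) - a * (1 / (x ^ 2) ^ r)| ≤ |a - 1| + |a * (1 / (x ^ 2) ^ r)| := abs_sub _ _
    _ ≤ (B + C₀ + C₁) / x + (1 + (B + C₀ + C₁)) * (1 / x) := by
        refine add_le_add h5 ?_
        rw [abs_mul, abs_of_nonneg (by positivity : (0 : ℝ) ≤ 1 / (x ^ 2) ^ r)]
        exact mul_le_mul h8 h7 (by positivity) (by positivity)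
    _ = _ := by ring

/-- **The normalised moments.** -/
theorem gauss (D r : ℕ) (hD : 1 ≤ D) (hr : 1 ≤ r) (w : ℕ → ℕ) (hw : w (D + r) = 1) (C₀ C₁ : ℝ) (hC₀ : 0 ≤ C₀) (hC₁ : 0 ≤ C₁) (ν : ℕ)
    (hν : 1 ≤ ν) :
    ∃ K : ℝ, 0 ≤ K ∧ ∀ {O : Type} [CommRing O] {n p : ℕ} [hp : Fact p.Prime] (ψ : O →+* ZMod p) {A : Type} [Fintype A] [DecidableEq A]
      {ι : A → Type} [∀ a, Fintype (ι a)] [∀ a, DecidableEq (ι a)] {J : Type} {h : J → MvPolynomial (Fin (n + 1)) O} {e : J → ℕ} {d : A → ℕ}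
      {f : (a : A) → ι a → MvPolynomial (Fin (n + 1)) O} (_ : Fintype.card A = r) (_ : ∀ j, (h j).IsHomogeneous (e j))
      (_ : ∀ j a, e j + 2 * ν ≤ d a + 1) (_ : ∀ a, Through h (d a) (f a)) (E : Set (MvPolynomial (Fin (n + 1)) O)),
      |(zeros ψ E : ℝ) - ∑ j ∈ range (D + r + 1), w j * (p : ℝ) ^ j| ≤ C₀ * Real.sqrt p ^ (2 * r + D - 1) →
      (zeros ψ (E ∪ Set.range h) : ℝ) ≤ C₁ * Real.sqrt p ^ D → ∀ k ≤ 2 * ν,
      |av (fun c => (gdev ψ E h f c / Real.sqrt p ^ D) ^ k) - (gm k : ℝ)| ≤ K / Real.sqrt p := by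
  obtain ⟨c, hc0, hc⟩ := var_main D r hD hr w hw C₀ C₁ hC₀ hC₁
  choose b hb0 hb1 hb using rec_main 1 le_rfl
  obtain ⟨K, hK⟩ : ∃ K : ℝ, K = ∑ k ∈ range (2 * ν + 1), (b k * (1 + c) * (2 + c) ^ k + (gm k : ℝ) * (c * k * (1 + c) ^ (k - 1))) := ⟨_, rfl⟩
  have hKk : ∀ k ≤ 2 * ν, b k * (1 + c) * (2 + c) ^ k + (gm k : ℝ) * (c * k * (1 + c) ^ (k - 1)) ≤ K := by
    intro k hk
    rw [hK]
    refine single_le_sum (f := fun k => b k * (1 + c) * (2 + c) ^ k + (gm k : ℝ) * (c * k * (1 + c) ^ (k - 1))) (fun k _ => ?_)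
      (mem_range.2 (by omega))
    have := hb0 k
    positivity
  have hK0 : 0 ≤ K := by
    refine le_trans ?_ (hKk 0 (Nat.zero_le _))
    have := hb0 0
    positivity
  refine ⟨K, hK0, ?_⟩
  intro O _ n p hp ψ A _ _ ι _ _ J h e d f hA hh hd hf E hW hZ k hk
  have hp0 : (0 : ℝ) < p := by exact_mod_cast hp.out.pos
  have hp1 : (1 : ℝ) ≤ p := by exact_mod_cast hp.out.one_lt.le
  obtain ⟨x, hx⟩ : ∃ x : ℝ, x = Real.sqrt p := ⟨_, rfl⟩
  have hx1 : 1 ≤ x := by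
    rw [hx]
    exact Real.one_le_sqrt.2 hp1
  have hx0 : 0 < x := by linarith
  have hxp : (p : ℝ) = x ^ 2 := by
    rw [hx, Real.sq_sqrt hp0.le]
  rw [← hx] at hW hZ ⊢
  rw [hxp] at hW
  obtain ⟨u, hu⟩ : ∃ u : ℝ, u = x ^ D := ⟨_, rfl⟩
  have hu1 : 1 ≤ u := by
    rw [hu]
    exact one_le_pow₀ hx1
  have hu0 : 0 < u := by linarith
  have hux : x ≤ u := by
    rw [hu]
    calc x = x ^ 1 := (pow_one x).symm
      _ ≤ x ^ D := pow_le_pow_right₀ hx1 hD
  have hrec := recur_gdev ψ (2 * ν - 1) hh (fun j a => by have := hd j a; omega) hf E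
  have h1 := hb k (Pt n p) (free ψ E h) _ _ _ (hrec.mono (Subset.refl _) (by omega : k ≤ 2 * ν - 1 + 1))
  obtain ⟨V, hV⟩ : ∃ V : ℝ, V = ∑ _ ∈ free ψ E h, av (fun u => x0 A p u ^ 2) := ⟨_, rfl⟩
  rw [← hV] at h1
  have hVe : V = ((zeros ψ E : ℝ) - zeros ψ (E ∪ Set.range h)) * (1 / (x ^ 2) ^ r * (1 - 1 / (x ^ 2) ^ r)) := by
    rw [hV, sum_const, nsmul_eq_mul, av_x0_sq, hA, ← hxp, zeros_base ψ E h]
    push_cast
    ring
  have hvar := hc x (zeros ψ E) (zeros ψ (E ∪ Set.range h)) hx1 (Nat.cast_nonneg _) hW hZ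
  rw [← hVe, ← hu] at hvar
  have hV0 : 0 ≤ V := by
    rw [hV]
    exact sum_nonneg fun _ _ => av_nonneg _ fun _ => sq_nonneg _
  obtain ⟨v, hv⟩ : ∃ v : ℝ, v = V / u ^ 2 := ⟨_, rfl⟩
  rw [← hv] at hvar
  have hv0 : 0 ≤ v := by
    rw [hv]
    positivity
  have hcx : c / x ≤ c := div_le_self hc0 hx1
  have hv1 : v ≤ 1 + c := by
    have := (abs_le.1 hvar).2
    linarith
  have hVv : V = v * u ^ 2 := by
    rw [hv]
    field_simp
  have hsV : Real.sqrt V = Real.sqrt v * u := by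
    rw [hVv, Real.sqrt_mul hv0, Real.sqrt_sq hu0.le]
  obtain ⟨y, hy⟩ : ∃ y : ℝ, y = Real.sqrt v := ⟨_, rfl⟩
  have hy0 : 0 ≤ y := by
    rw [hy]
    exact Real.sqrt_nonneg _
  have hyv : y ^ 2 = v := by
    rw [hy, Real.sq_sqrt hv0]
  have hy1 : y ≤ 1 + c := by
    rw [hy, Real.sqrt_le_left (by linarith)]
    nlinarith
  rw [← hy] at hsV
  have hyd : |y - 1| ≤ c / x := by
    refine le_trans ?_ hvar
    rw [← hyv]
    have : y ^ 2 - 1 = (y - 1) * (y + 1) := by ring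
    rw [this, abs_mul]
    have h2 : 1 ≤ |y + 1| := by
      rw [abs_of_nonneg (by linarith)]
      linarith
    exact le_mul_of_one_le_right (abs_nonneg _) h2
  -- the two errors
  have e1 : av (fun c => (gdev ψ E h f c / u) ^ k) = av (fun c => (∑ Q ∈ free ψ E h, x0 A p (vals ψ f Q c)) ^ k) / u ^ k := by
    rw [eq_div_iff (pow_pos hu0 k).ne', mul_comm, ← av_smul]
    congr 1
    funext c'
    rw [div_pow, mul_div_cancel₀ _ (pow_pos hu0 k).ne']
    rfl
  have e2 : av (fun c => (gdev ψ E h f c / u) ^ k) - (gm k : ℝ) =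
      (av (fun c => (∑ Q ∈ free ψ E h, x0 A p (vals ψ f Q c)) ^ k) - (gm k : ℝ) * Real.sqrt V ^ k) / u ^ k + (gm k : ℝ) * (y ^ k - 1 ^ k) := by
    rw [e1, hsV, mul_pow]
    have := (pow_pos hu0 k).ne'
    field_simp
    ring
  have e3 : |(av (fun c => (∑ Q ∈ free ψ E h, x0 A p (vals ψ f Q c)) ^ k) - (gm k : ℝ) * Real.sqrt V ^ k) / u ^ k| ≤
      b k * (1 + c) * (2 + c) ^ k / x := by
    rw [abs_div, abs_of_pos (pow_pos hu0 k), div_le_iff₀ (pow_pos hu0 k)]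
    refine h1.trans ?_
    rcases Nat.lt_or_ge k 3 with h3 | h3
    · rw [hb1 k (by omega)]
      simp
    · have h6 : Real.sqrt (1 + V) ≤ (2 + c) * u := by
        rw [Real.sqrt_le_left (by positivity)]
        have h7 : 1 ≤ u ^ 2 := one_le_pow₀ hu1
        have h8 : V ≤ (1 + c) * u ^ 2 := by
          rw [hVv]
          exact mul_le_mul_of_nonneg_right hv1 (by positivity)
        have h9 : (2 + c) * u ^ 2 ≤ (2 + c) ^ 2 * u ^ 2 := by
          refine mul_le_mul_of_nonneg_right ?_ (by positivity)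
          nlinarith
        rw [mul_pow]
        linarith
      have h7 : V ≤ (1 + c) * u ^ 2 := by
        rw [hVv]
        exact mul_le_mul_of_nonneg_right hv1 (by positivity)
      calc b k * V * Real.sqrt (1 + V) ^ (k - 3) ≤ b k * ((1 + c) * u ^ 2) * ((2 + c) * u) ^ (k - 3) := by
            refine mul_le_mul (mul_le_mul_of_nonneg_left h7 (hb0 k)) (pow_le_pow_left₀ (Real.sqrt_nonneg _) h6 _) (by positivity) ?_
            have := hb0 k
            positivity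
        _ = b k * (1 + c) * (2 + c) ^ (k - 3) * u ^ (k - 1) := by
            have h8 : u ^ (k - 1) = u ^ 2 * u ^ (k - 3) := by
              rw [← pow_add]
              congr 1
              omega
            rw [mul_pow, h8]
            ring
        _ ≤ b k * (1 + c) * (2 + c) ^ k * u ^ (k - 1) := by
            refine mul_le_mul_of_nonneg_right (mul_le_mul_of_nonneg_left ?_ ?_) (by positivity)
            · exact pow_le_pow_right₀ (by linarith) (by omega)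
            · have := hb0 k
              positivity
        _ ≤ b k * (1 + c) * (2 + c) ^ k / x * u ^ k := by
            have h8 : u ^ k = u ^ (k - 1) * u := by
              rw [← pow_succ]
              congr 1
              omega
            have h9 := hb0 k
            rw [h8, div_mul_eq_mul_div, le_div_iff₀ hx0]
            have h10 : u ^ (k - 1) * x ≤ u ^ (k - 1) * u := mul_le_mul_of_nonneg_left hux (by positivity)
            calc b k * (1 + c) * (2 + c) ^ k * u ^ (k - 1) * x = b k * (1 + c) * (2 + c) ^ k * (u ^ (k - 1) * x) := by ring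
              _ ≤ _ := mul_le_mul_of_nonneg_left h10 (by positivity)
  have e4 : |(gm k : ℝ) * (y ^ k - 1 ^ k)| ≤ (gm k : ℝ) * (c * k * (1 + c) ^ (k - 1)) / x := by
    rw [abs_mul, abs_of_nonneg (Nat.cast_nonneg (gm k) : (0 : ℝ) ≤ _), mul_div_assoc]
    refine mul_le_mul_of_nonneg_left ?_ (Nat.cast_nonneg _)
    have h2 := abs_pow_sub_pow_le y 1 k
    refine h2.trans ?_
    have h3 : max |y| |1| ≤ 1 + c := by
      rw [abs_one, abs_of_nonneg hy0]
      exact max_le hy1 (by linarith)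
    calc |y - 1| * k * max |y| |1| ^ (k - 1) ≤ c / x * k * (1 + c) ^ (k - 1) := by
          refine mul_le_mul (mul_le_mul_of_nonneg_right hyd (Nat.cast_nonneg _)) (pow_le_pow_left₀ (by positivity) h3 _) (by positivity) (by positivity)
      _ = _ := by ring
  rw [← hu, e2]
  refine (abs_add_le _ _).trans ((add_le_add e3 e4).trans ?_)
  rw [← add_div]
  exact div_le_div_of_nonneg_right (hKk k hk) hx0.le

end Q282GP
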